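import Mathlib

/-!
# Integrable almost complex structures in charts, products and fixed slices
-/

set_option autoImplicit false

open Set Filter Topology
open scoped ContDiff Manifold

namespace Pool.Agent.TH411.CX

/-- Coordinate expressions `J i`, in the charts `c i`, of an almost complex structure. -/
structure ACx {ι M F : Type*} [TopologicalSpace M] [NormedAddCommGroup F] [NormedSpace ℝ F]
    (c : ι → OpenPartialHomeomorph M F) (J : ι → F → F →L[ℝ] F) : Prop where
  smooth : ∀ i, ContDiffOn ℝ ∞ (J i) (c i).target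
  compat : ∀ i j, ∀ x ∈ (c i).source ∩ (c j).source, ∀ u,
    fderiv ℝ (c j ∘ (c i).symm) (c i x) (J i (c i x) u) =
      J j (c j x) (fderiv ℝ (c j ∘ (c i).symm) (c i x) u)
  sq : ∀ i, ∀ y ∈ (c i).target, ∀ u, J i y (J i y u) = -u

/-- The Nijenhuis tensor vanishes at `p`. -/
def Nij {ι M F : Type*} [TopologicalSpace M] [NormedAddCommGroup F] [NormedSpace ℝ F]
    (c : ι → OpenPartialHomeomorph M F) (J : ι → F → F →L[ℝ] F) (p : M) : Prop :=
  ∀ i, p ∈ (c i).source → ∀ u v,
    fderiv ℝ (J i) (c i p) (J i (c i p) u) v - fderiv ℝ (J i) (c i p) (J i (c i p) v) u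
      + J i (c i p) (fderiv ℝ (J i) (c i p) v u) - J i (c i p) (fderiv ℝ (J i) (c i p) u v) = 0

section charts

variable {E X : Type*} [NormedAddCommGroup E] [NormedSpace ℝ E]
  [TopologicalSpace X] [ChartedSpace E X] [IsManifold 𝓘(ℝ, E) ∞ X]

theorem trans_diff {e e' : OpenPartialHomeomorph X E} (he : e ∈ atlas E X)
    (he' : e' ∈ atlas E X) {x : X} (hx : x ∈ e.source) (hx' : x ∈ e'.source) :
    DifferentiableAt ℝ (e' ∘ e.symm) (e x) := by
  have h := HasGroupoid.compatible (G := contDiffGroupoid ∞ 𝓘(ℝ, E)) he he'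
  have h1 := (mem_groupoid_of_pregroupoid.1 h).1
  have h2 : ContDiffOn ℝ ∞ (e' ∘ e.symm) (e.symm ≫ₕ e').source := by
    have h3 : ContDiffOn ℝ ∞ (𝓘(ℝ, E) ∘ (e.symm ≫ₕ e') ∘ 𝓘(ℝ, E).symm)
      (𝓘(ℝ, E).symm ⁻¹' (e.symm ≫ₕ e').source ∩ range 𝓘(ℝ, E)) := h1
    simpa using h3
  refine (h2.contDiffAt ((e.symm ≫ₕ e').open_source.mem_nhds ?_)).differentiableAt (by simp)
  rw [OpenPartialHomeomorph.trans_source]
  refine ⟨?_, ?_⟩
  · simpa using e.map_source hx
  · simpa [e.left_inv hx] using hx'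

end charts

section prod

variable {E X F Y : Type*} [NormedAddCommGroup E] [NormedSpace ℝ E]
  [TopologicalSpace X] [ChartedSpace E X] [IsManifold 𝓘(ℝ, E) ∞ X]
  [NormedAddCommGroup F] [NormedSpace ℝ F]
  [TopologicalSpace Y] [ChartedSpace F Y] [IsManifold 𝓘(ℝ, F) ∞ Y]

/-- the charts of a manifold -/
def ch (E X : Type*) [TopologicalSpace E] [TopologicalSpace X] [ChartedSpace E X] :
    atlas E X → OpenPartialHomeomorph X E := fun e => e

/-- the product charts -/
def pch (E X F Y : Type*) [TopologicalSpace E] [TopologicalSpace X] [ChartedSpace E X]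
    [TopologicalSpace F] [TopologicalSpace Y] [ChartedSpace F Y] :
    atlas E X × atlas F Y → OpenPartialHomeomorph (X × Y) (E × F) :=
  fun p => (ch E X p.1).prod (ch F Y p.2)

theorem pch_trans (e e' : atlas E X) (f f' : atlas F Y) {x : X} {y : Y}
    (hx : x ∈ (ch E X e).source) (hx' : x ∈ (ch E X e').source)
    (hy : y ∈ (ch F Y f).source) (hy' : y ∈ (ch F Y f').source) (u : E) (v : F) :
    fderiv ℝ (pch E X F Y (e', f') ∘ (pch E X F Y (e, f)).symm)
      (pch E X F Y (e, f) (x, y)) (u, v) =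
      (fderiv ℝ (ch E X e' ∘ (ch E X e).symm) (ch E X e x) u,
        fderiv ℝ (ch F Y f' ∘ (ch F Y f).symm) (ch F Y f y) v) := by
  have h1 := (trans_diff e.2 e'.2 hx hx').hasFDerivAt
  have h2 := (trans_diff f.2 f'.2 hy hy').hasFDerivAt
  have h3 : HasFDerivAt (Prod.map (ch E X e' ∘ (ch E X e).symm) (ch F Y f' ∘ (ch F Y f).symm))
      ((fderiv ℝ (ch E X e' ∘ (ch E X e).symm) (ch E X e x)).prodMap
        (fderiv ℝ (ch F Y f' ∘ (ch F Y f).symm) (ch F Y f y))) (ch E X e x, ch F Y f y) :=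
    HasFDerivAt.prodMap (p := (ch E X e x, ch F Y f y)) h1 h2
  have h4 : (pch E X F Y (e', f') ∘ (pch E X F Y (e, f)).symm) =
      Prod.map (ch E X e' ∘ (ch E X e).symm) (ch F Y f' ∘ (ch F Y f).symm) := by
    funext p
    rfl
  have h5 : pch E X F Y (e, f) (x, y) = (ch E X e x, ch F Y f y) := rfl
  rw [h4, h5, h3.fderiv]
  rfl

end prod

section slice

variable {E F : Type*} [NormedAddCommGroup E] [NormedSpace ℝ E]
  [NormedAddCommGroup F] [NormedSpace ℝ F]

/-- the block of an endomorphism on the first factor -/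
noncomputable def blk (E F : Type*) [NormedAddCommGroup E] [NormedSpace ℝ E]
    [NormedAddCommGroup F] [NormedSpace ℝ F] :
    ((E × F) →L[ℝ] (E × F)) →L[ℝ] (E →L[ℝ] E) :=
  (ContinuousLinearMap.compL ℝ E (E × F) E (ContinuousLinearMap.fst ℝ E F)).comp
    ((ContinuousLinearMap.compL ℝ E (E × F) (E × F)).flip (ContinuousLinearMap.inl ℝ E F))

theorem blk_apply (A : (E × F) →L[ℝ] (E × F)) (u : E) : blk E F A u = (A (u, 0)).1 := rfl

theorem hasFDerivAt_slice {G : Type*} [NormedAddCommGroup G] [NormedSpace ℝ G]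
    {J : E × F → G} {y : E} {z : F} (h : DifferentiableAt ℝ J (y, z)) :
    HasFDerivAt (fun a : E => J (a, z))
      ((fderiv ℝ J (y, z)).comp (ContinuousLinearMap.inl ℝ E F)) y := by
  have h1 : HasFDerivAt (fun a : E => (a, z)) (ContinuousLinearMap.inl ℝ E F) y :=
    hasFDerivAt_prodMk_left y z
  exact HasFDerivAt.comp (g := J) y h.hasFDerivAt h1

end slice

end Pool.Agent.TH411.CX
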