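import Pool.Agent.TH411.CX.Core

/-!
# Complex structures on products: fixed slices
-/

set_option autoImplicit false

open Set Filter Topology
open scoped ContDiff Manifold

namespace Pool.Agent.TH411.CX

/-- The differential of `σ` at `p` commutes with `J`. -/
def Comm {ι M F : Type*} [TopologicalSpace M] [NormedAddCommGroup F] [NormedSpace ℝ F]
    (c : ι → OpenPartialHomeomorph M F) (J : ι → F → F →L[ℝ] F) (σ : M → M) (p : M) : Prop :=
  ∀ i j, p ∈ (c i).source → σ p ∈ (c j).source → ∀ u,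
    fderiv ℝ (c j ∘ σ ∘ (c i).symm) (c i p) (J i (c i p) u) =
      J j (c j (σ p)) (fderiv ℝ (c j ∘ σ ∘ (c i).symm) (c i p) u)

variable {E X F Y : Type*} [NormedAddCommGroup E] [NormedSpace ℝ E]
  [TopologicalSpace X] [ChartedSpace E X] [IsManifold 𝓘(ℝ, E) ∞ X]
  [NormedAddCommGroup F] [NormedSpace ℝ F]
  [TopologicalSpace Y] [ChartedSpace F Y]

omit [IsManifold 𝓘(ℝ, E) ∞ X] in
theorem self_trans (e : atlas E X) {x : X} (hx : x ∈ (ch E X e).source) (u : E) :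
    fderiv ℝ (ch E X e ∘ (ch E X e).symm) (ch E X e x) u = u := by
  have h : (ch E X e ∘ (ch E X e).symm) =ᶠ[𝓝 (ch E X e x)] id := by
    filter_upwards [(ch E X e).open_target.mem_nhds ((ch E X e).map_source hx)] with y hy
    exact (ch E X e).right_inv hy
  rw [h.fderiv_eq, fderiv_id]
  rfl

theorem conj_trans (e e' : atlas E X) (f f' : atlas F Y) {x : X} {y : Y} (τ : Y → Y)
    (hx : x ∈ (ch E X e).source) (hx' : x ∈ (ch E X e').source)
    (hτ : DifferentiableAt ℝ (ch F Y f' ∘ τ ∘ (ch F Y f).symm) (ch F Y f y)) (u : E) (v : F) :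
    fderiv ℝ (pch E X F Y (e', f') ∘ Prod.map id τ ∘ (pch E X F Y (e, f)).symm)
      (pch E X F Y (e, f) (x, y)) (u, v) =
      (fderiv ℝ (ch E X e' ∘ (ch E X e).symm) (ch E X e x) u,
        fderiv ℝ (ch F Y f' ∘ τ ∘ (ch F Y f).symm) (ch F Y f y) v) := by
  have h1 := (trans_diff e.2 e'.2 hx hx').hasFDerivAt
  have h2 := hτ.hasFDerivAt
  have h3 : HasFDerivAt (Prod.map (ch E X e' ∘ (ch E X e).symm) (ch F Y f' ∘ τ ∘ (ch F Y f).symm))
      ((fderiv ℝ (ch E X e' ∘ (ch E X e).symm) (ch E X e x)).prodMap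
        (fderiv ℝ (ch F Y f' ∘ τ ∘ (ch F Y f).symm) (ch F Y f y))) (ch E X e x, ch F Y f y) :=
    HasFDerivAt.prodMap (p := (ch E X e x, ch F Y f y)) h1 h2
  have h4 : (pch E X F Y (e', f') ∘ Prod.map id τ ∘ (pch E X F Y (e, f)).symm) =
      Prod.map (ch E X e' ∘ (ch E X e).symm) (ch F Y f' ∘ τ ∘ (ch F Y f).symm) := by
    funext p
    rfl
  have h5 : pch E X F Y (e, f) (x, y) = (ch E X e x, ch F Y f y) := rfl
  rw [h4, h5, h3.fderiv]
  rfl

section slice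

variable {J : atlas E X × atlas F Y → E × F → (E × F) →L[ℝ] (E × F)} {τ : Y → Y} {y₀ : Y}
  {f : atlas F Y}

theorem key (hy : y₀ ∈ (ch F Y f).source) (hfix : τ y₀ = y₀)
    (hd : DifferentiableAt ℝ (ch F Y f ∘ τ ∘ (ch F Y f).symm) (ch F Y f y₀))
    (hnd : ∀ w, fderiv ℝ (ch F Y f ∘ τ ∘ (ch F Y f).symm) (ch F Y f y₀) w = w → w = 0)
    (hinv : ∀ x, Comm (pch E X F Y) J (Prod.map id τ) (x, y₀))
    (e : atlas E X) {a : E} (ha : a ∈ (ch E X e).target) (u : E) :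
    (J (e, f) (a, ch F Y f y₀) (u, 0)).2 = 0 := by
  have hx : (ch E X e).symm a ∈ (ch E X e).source := (ch E X e).map_target ha
  have hax : ch E X e ((ch E X e).symm a) = a := (ch E X e).right_inv ha
  have h1 := hinv ((ch E X e).symm a) (e, f) (e, f) ⟨hx, hy⟩ (by
    show (_, τ y₀) ∈ _
    rw [hfix]
    exact ⟨hx, hy⟩) (u, 0)
  rw [conj_trans e e f f τ hx hx hd, self_trans e hx, conj_trans e e f f τ hx hx hd,
    self_trans e hx, map_zero] at h1
  have h2 : (pch E X F Y (e, f)) ((ch E X e).symm a, y₀) = (a, ch F Y f y₀) := by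
    show (ch E X e ((ch E X e).symm a), ch F Y f y₀) = _
    rw [hax]
  have h3 : (pch E X F Y (e, f)) (Prod.map id τ ((ch E X e).symm a, y₀)) = (a, ch F Y f y₀) := by
    show (ch E X e ((ch E X e).symm a), ch F Y f (τ y₀)) = _
    rw [hax, hfix]
  rw [h3, h2] at h1
  exact hnd _ (congrArg Prod.snd h1)

variable [IsManifold 𝓘(ℝ, F) ∞ Y]

theorem slice_cx (h : ACx (pch E X F Y) J) (hn : ∀ x, Nij (pch E X F Y) J (x, y₀))
    (hy : y₀ ∈ (ch F Y f).source)
    (hkey : ∀ (e : atlas E X) {a : E}, a ∈ (ch E X e).target → ∀ u : E,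
      (J (e, f) (a, ch F Y f y₀) (u, 0)).2 = 0) :
    ACx (ch E X) (fun e a => blk E F (J (e, f) (a, ch F Y f y₀))) ∧
      ∀ x, Nij (ch E X) (fun e a => blk E F (J (e, f) (a, ch F Y f y₀))) x := by
  have hb : ch F Y f y₀ ∈ (ch F Y f).target := (ch F Y f).map_source hy
  have hv : ∀ (e : atlas E X) {a : E}, a ∈ (ch E X e).target → ∀ u : E,
      J (e, f) (a, ch F Y f y₀) (u, 0) = (blk E F (J (e, f) (a, ch F Y f y₀)) u, 0) := by
    intro e a ha u
    exact Prod.ext rfl (hkey e ha u)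
  refine ⟨⟨fun e => ?_, fun e e' x hx u => ?_, fun e a ha u => ?_⟩, fun x e hxe u v => ?_⟩
  · refine (blk E F).contDiff.comp_contDiffOn ((h.smooth (e, f)).comp
      (contDiff_id.prodMk contDiff_const).contDiffOn fun a ha => ?_)
    exact ⟨ha, hb⟩
  · have h1 := h.compat (e, f) (e', f) (x, y₀) ⟨⟨hx.1, hy⟩, ⟨hx.2, hy⟩⟩ (u, 0)
    have hx1 : ch E X e x ∈ (ch E X e).target := (ch E X e).map_source hx.1
    have h2 : pch E X F Y (e, f) (x, y₀) = (ch E X e x, ch F Y f y₀) := rfl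
    have h3 : pch E X F Y (e', f) (x, y₀) = (ch E X e' x, ch F Y f y₀) := rfl
    have h4 : J (e, f) (pch E X F Y (e, f) (x, y₀)) (u, 0) =
        (blk E F (J (e, f) (ch E X e x, ch F Y f y₀)) u, 0) := hv e hx1 u
    rw [h4, pch_trans e e' f f hx.1 hx.2 hy hy, pch_trans e e' f f hx.1 hx.2 hy hy,
      map_zero, h3] at h1
    exact congrArg Prod.fst h1
  · have h1 := h.sq (e, f) (a, ch F Y f y₀) ⟨ha, hb⟩ (u, 0)
    rw [hv e ha u] at h1
    exact congrArg Prod.fst h1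
  · obtain ⟨a, hax⟩ : ∃ a, a = ch E X e x := ⟨_, rfl⟩
    have ha : a ∈ (ch E X e).target := by rw [hax]; exact (ch E X e).map_source hxe
    have hd : DifferentiableAt ℝ (J (e, f)) (a, ch F Y f y₀) :=
      ((h.smooth (e, f)).contDiffAt ((pch E X F Y (e, f)).open_target.mem_nhds
        (show (a, ch F Y f y₀) ∈ (pch E X F Y (e, f)).target from ⟨ha, hb⟩))).differentiableAt
          (by simp)
    have hG := hasFDerivAt_slice hd
    set D := fderiv ℝ (J (e, f)) (a, ch F Y f y₀) with hD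
    have hB : HasFDerivAt (fun a : E => blk E F (J (e, f) (a, ch F Y f y₀)))
        ((blk E F).comp (D.comp (ContinuousLinearMap.inl ℝ E F))) a :=
      HasFDerivAt.comp (𝕜 := ℝ) (E := E) (F := (E × F) →L[ℝ] (E × F)) (G := E →L[ℝ] E) a
        (blk E F).hasFDerivAt hG
    have hzero : ∀ u w : E, (D (w, 0) (u, 0)).2 = 0 := by
      intro u w
      let L : ((E × F) →L[ℝ] (E × F)) →L[ℝ] F :=
        (ContinuousLinearMap.snd ℝ E F).comp (ContinuousLinearMap.apply ℝ (E × F) ((u, 0) : E × F))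
      have h1 : HasFDerivAt (fun a : E => L (J (e, f) (a, ch F Y f y₀)))
          (L.comp (D.comp (ContinuousLinearMap.inl ℝ E F))) a :=
        HasFDerivAt.comp (𝕜 := ℝ) (E := E) (F := (E × F) →L[ℝ] (E × F)) (G := F) a
          L.hasFDerivAt hG
      have h2 : (fun a : E => L (J (e, f) (a, ch F Y f y₀))) =ᶠ[𝓝 a] fun _ => (0 : F) := by
        filter_upwards [(ch E X e).open_target.mem_nhds ha] with b hb'
        exact hkey e hb' u
      have h3 := (h1.congr_of_eventuallyEq h2.symm).unique (hasFDerivAt_const (0 : F) a)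
      exact congrArg (fun M : E →L[ℝ] F => M w) h3
    have h1 := hn x (e, f) ⟨hxe, hy⟩ (u, 0) (v, 0)
    have h0 : pch E X F Y (e, f) (x, y₀) = (a, ch F Y f y₀) := by rw [hax]; rfl
    rw [h0, ← hD, hv e ha u, hv e ha v] at h1
    have e1 : ∀ u w : E, D (w, 0) (u, 0) = ((D (w, 0) (u, 0)).1, 0) := fun u w =>
      Prod.ext rfl (hzero u w)
    rw [e1 u v, e1 v u, hv e ha, hv e ha] at h1
    have h2 := congrArg Prod.fst h1
    have hf := hB.fderiv
    rw [← hax, hf]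
    exact h2

end slice

section prod

variable [IsManifold 𝓘(ℝ, F) ∞ Y]

/-- The product of two almost complex structures. -/
noncomputable def prodJ (A : atlas E X → E → E →L[ℝ] E) (B : atlas F Y → F → F →L[ℝ] F) :
    atlas E X × atlas F Y → E × F → (E × F) →L[ℝ] (E × F) :=
  fun i p => ContinuousLinearMap.prodMapL ℝ E E F F (A i.1 p.1, B i.2 p.2)

omit [IsManifold 𝓘(ℝ, E) ∞ X] [IsManifold 𝓘(ℝ, F) ∞ Y] in
theorem prodJ_apply (A : atlas E X → E → E →L[ℝ] E) (B : atlas F Y → F → F →L[ℝ] F)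
    (i : atlas E X × atlas F Y) (p v : E × F) :
    prodJ A B i p v = (A i.1 p.1 v.1, B i.2 p.2 v.2) := rfl

theorem prod_cx {A : atlas E X → E → E →L[ℝ] E} {B : atlas F Y → F → F →L[ℝ] F}
    (hA : ACx (ch E X) A) (hB : ACx (ch F Y) B) : ACx (pch E X F Y) (prodJ A B) := by
  refine ⟨fun i => ?_, fun i j p hp u => ?_, fun i p hp u => ?_⟩
  · refine (ContinuousLinearMap.prodMapL ℝ E E F F).contDiff.comp_contDiffOn ?_
    refine ContDiffOn.prodMk ?_ ?_
    · exact (hA.smooth i.1).comp contDiff_fst.contDiffOn fun p hp => hp.1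
    · exact (hB.smooth i.2).comp contDiff_snd.contDiffOn fun p hp => hp.2
  · obtain ⟨e, f⟩ := i
    obtain ⟨e', f'⟩ := j
    obtain ⟨x, y⟩ := p
    obtain ⟨u, v⟩ := u
    have h1 := hA.compat e e' x ⟨hp.1.1, hp.2.1⟩ u
    have h2 := hB.compat f f' y ⟨hp.1.2, hp.2.2⟩ v
    rw [pch_trans e e' f f' hp.1.1 hp.2.1 hp.1.2 hp.2.2, prodJ_apply, prodJ_apply,
      pch_trans e e' f f' hp.1.1 hp.2.1 hp.1.2 hp.2.2]
    exact Prod.ext h1 h2
  · rw [prodJ_apply, prodJ_apply]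
    exact Prod.ext (hA.sq i.1 p.1 hp.1 u.1) (hB.sq i.2 p.2 hp.2 u.2)

omit [IsManifold 𝓘(ℝ, E) ∞ X] [IsManifold 𝓘(ℝ, F) ∞ Y] in
theorem prod_nij {A : atlas E X → E → E →L[ℝ] E} {B : atlas F Y → F → F →L[ℝ] F}
    (hA : ACx (ch E X) A) (hB : ACx (ch F Y) B) (hnA : ∀ x, Nij (ch E X) A x)
    (hnB : ∀ y, Nij (ch F Y) B y) (p : X × Y) : Nij (pch E X F Y) (prodJ A B) p := by
  intro i hp u v
  have h0 : pch E X F Y i p = (ch E X i.1 p.1, ch F Y i.2 p.2) := rfl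
  have hdA : DifferentiableAt ℝ (A i.1) (ch E X i.1 p.1) :=
    ((hA.smooth i.1).contDiffAt ((ch E X i.1).open_target.mem_nhds
      ((ch E X i.1).map_source hp.1))).differentiableAt (by simp)
  have hdB : DifferentiableAt ℝ (B i.2) (ch F Y i.2 p.2) :=
    ((hB.smooth i.2).contDiffAt ((ch F Y i.2).open_target.mem_nhds
      ((ch F Y i.2).map_source hp.2))).differentiableAt (by simp)
  have h1 : HasFDerivAt (Prod.map (A i.1) (B i.2))
      ((fderiv ℝ (A i.1) (ch E X i.1 p.1)).prodMap (fderiv ℝ (B i.2) (ch F Y i.2 p.2)))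
      (ch E X i.1 p.1, ch F Y i.2 p.2) :=
    HasFDerivAt.prodMap (p := (ch E X i.1 p.1, ch F Y i.2 p.2)) hdA.hasFDerivAt hdB.hasFDerivAt
  have h2 : HasFDerivAt (prodJ A B i) ((ContinuousLinearMap.prodMapL ℝ E E F F).comp
      ((fderiv ℝ (A i.1) (ch E X i.1 p.1)).prodMap (fderiv ℝ (B i.2) (ch F Y i.2 p.2))))
      (ch E X i.1 p.1, ch F Y i.2 p.2) :=
    HasFDerivAt.comp (𝕜 := ℝ) (E := E × F) (F := (E →L[ℝ] E) × (F →L[ℝ] F))
      (G := (E × F) →L[ℝ] (E × F)) (ch E X i.1 p.1, ch F Y i.2 p.2)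
      (ContinuousLinearMap.prodMapL ℝ E E F F).hasFDerivAt h1
  rw [h0, h2.fderiv]
  exact Prod.ext (hnA p.1 i.1 hp.1 u.1 v.1) (hnB p.2 i.2 hp.2 u.2 v.2)

omit [IsManifold 𝓘(ℝ, F) ∞ Y] in
theorem prod_comm {A : atlas E X → E → E →L[ℝ] E} {B : atlas F Y → F → F →L[ℝ] F}
    (hA : ACx (ch E X) A) {τ : Y → Y} (hB : ∀ y, Comm (ch F Y) B τ y)
    (hd : ∀ (f f' : atlas F Y) (y : Y), y ∈ (ch F Y f).source → τ y ∈ (ch F Y f').source →
      DifferentiableAt ℝ (ch F Y f' ∘ τ ∘ (ch F Y f).symm) (ch F Y f y)) (p : X × Y) :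
    Comm (pch E X F Y) (prodJ A B) (Prod.map id τ) p := by
  rintro ⟨e, f⟩ ⟨e', f'⟩ hp hp' ⟨u, v⟩
  obtain ⟨x, y⟩ := p
  have hx : x ∈ (ch E X e).source := hp.1
  have hy : y ∈ (ch F Y f).source := hp.2
  have hx' : x ∈ (ch E X e').source := hp'.1
  have hy' : τ y ∈ (ch F Y f').source := hp'.2
  have h1 := hA.compat e e' x ⟨hx, hx'⟩ u
  have h2 := hB y f f' hy hy' v
  rw [conj_trans e e' f f' τ hx hx' (hd f f' y hy hy'), prodJ_apply, prodJ_apply,
    conj_trans e e' f f' τ hx hx' (hd f f' y hy hy')]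
  exact Prod.ext h1 h2

end prod

end Pool.Agent.TH411.CX
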